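import Pool.Agent.H5.ATW2.Sq
import Pool.Agent.H41.ATW.Pri

/-! The orders on the edge of the twists of one member, bounded by the order of growth of the
Rankin-Selberg square. -/

open Complex Filter Topology

namespace Pool.Agent.H5.ATW2

open Pool.Agent.H89.EdgeBasic Pool.Agent.H89.EdgeOrd Pool.Agent.H41.ATW Pool.H42.HW

variable {N : ℕ} {J : Type} {B : J → ℕ → Multiset ℂ}

/-- `|SQ (1 + i + h)| ≤ C * h ^ (-r)` for arbitrarily small `h`. -/
def Grow (N i : ℕ) (P : ℕ → Polynomial ℂ) (B : ℕ → Multiset ℂ) (r : ℝ) : Prop :=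
  ∃ C : ℝ, ∃ᶠ h : ℝ in 𝓝[>] 0, ‖SQ N P B (1 + (i:ℂ) + (h:ℂ))‖ ≤ C * h ^ (-r)

/-- The exponent `b ^ 2` is always allowed. -/
theorem grow_sq {i b : ℕ} {P : ℕ → Polynomial ℂ} (H : Hyp N i b P) (hB : RS N B) (j : J) :
    Grow N i P (B j) ((b:ℝ) ^ 2) := by
  obtain ⟨C, hC⟩ := hB.diag j
  refine ⟨Real.exp ((b:ℝ) ^ 2 * C), Eventually.frequently ?_⟩
  have hlt : ∀ᶠ η : ℝ in 𝓝[>] 0, η < 1 := by
    have : ∀ᶠ η : ℝ in 𝓝 0, η < 1 := gt_mem_nhds one_pos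
    exact nhdsWithin_le_nhds this
  filter_upwards [self_mem_nhdsWithin, hlt] with η h0 h1
  have hη : 0 < η := h0
  obtain ⟨h2, h3⟩ := log_SQ H (hB.small j) hη (hB.summ j η hη)
  have h4 : Real.log ‖SQ N P (B j) (1 + (i:ℂ) + (η:ℂ))‖ ≤
      (b:ℝ) ^ 2 * (Real.log (1/η) + C) := by
    rw [h3]
    refine le_trans ?_ (mul_le_mul_of_nonneg_left (hC η hη h1.le) (sq_nonneg _))
    rw [← tsum_mul_left]
    refine Summable.tsum_le_tsum (fun x => ?_) (summ_aa H (hB.summ j η hη))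
      ((hB.summ j η hη).mul_left _)
    rw [norm_mul, mul_pow]
    have h5 : ‖aa P i x‖ ^ 2 ≤ (b:ℝ) ^ 2 := pow_le_pow_left₀ (norm_nonneg _) (aa_norm_le H x) 2
    have h6 : 0 ≤ w η x * ‖ps (B j x.1) (x.2 + 1)‖ ^ 2 := by
      have := (w_pos η x).le
      positivity
    calc w η x * (‖aa P i x‖ ^ 2 * ‖ps (B j x.1) (x.2 + 1)‖ ^ 2)
        = ‖aa P i x‖ ^ 2 * (w η x * ‖ps (B j x.1) (x.2 + 1)‖ ^ 2) := by ring
      _ ≤ _ := mul_le_mul_of_nonneg_right h5 h6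
  have hn : 0 < ‖SQ N P (B j) (1 + (i:ℂ) + (η:ℂ))‖ := norm_pos_iff.mpr h2
  have h7 : ‖SQ N P (B j) (1 + (i:ℂ) + (η:ℂ))‖ ≤ Real.exp ((b:ℝ) ^ 2 * (Real.log (1/η) + C)) := by
    rw [← Real.exp_log hn]
    exact Real.exp_le_exp.mpr h4
  refine h7.trans (le_of_eq ?_)
  rw [Real.rpow_def_of_pos hη, ← Real.exp_add, one_div, Real.log_inv]
  congr 1
  ring

/-- Finite sums of squares of orders. -/
theorem finite_sq {i b : ℕ} {P : ℕ → Polynomial ℂ} (H : Hyp N i b P) (hB : RS N B)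
    (L : J → J → ℂ → ℂ)
    (hL : ∀ (j k : J) (s : ℂ), 1 + (i:ℝ)/2 < s.re → L j k s = EP N P (B j) (B k) s)
    (j : J) {r : ℝ} (hr : Grow N i P (B j) r) (T : Finset (J × ℂ))
    (hT : ∀ x ∈ T, x.2.re = 1 + (i:ℝ)/2)
    (hm : ∀ x ∈ T, MeromorphicAt (L j x.1) x.2)
    (htop : ∀ x ∈ T, meromorphicOrderAt (L j x.1) x.2 ≠ ⊤) :
    ∑ x ∈ T, ((meromorphicOrderAt (L j x.1) x.2).untop₀ : ℝ) ^ 2 ≤ r := by
  classical
  obtain ⟨C0, hC0⟩ := hr
  set S : Finset (J × ℝ) := T.image (fun x => (x.1, x.2.im)) with hS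
  have hinj : Set.InjOn (fun x : J × ℂ => (x.1, x.2.im)) T := by
    intro a ha c hc h
    simp only [Prod.mk.injEq] at h
    refine Prod.ext h.1 (Complex.ext ?_ h.2)
    rw [hT a ha, hT c hc]
  obtain ⟨C1, hC1⟩ := bessel H hB L hL j S
  have h1 : Tendsto (fun η : ℝ => ∑ x ∈ T,
      (Real.log ‖L j x.1 (x.2 + (η:ℂ))‖ / Real.log (1/η)) ^ 2) (𝓝[>] 0)
      (𝓝 (∑ x ∈ T, (-((meromorphicOrderAt (L j x.1) x.2).untop₀ : ℝ)) ^ 2)) := by
    apply tendsto_finsetSum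
    intro x hx
    exact (radial (hm x hx) (htop x hx)).pow 2
  simp only [neg_sq] at h1
  have h2 : Tendsto (fun η : ℝ => (Real.log C0 / Real.log (1/η) + r) *
      (1 + C1 / Real.log (1/η))) (𝓝[>] 0) (𝓝 ((0 + r) * (1 + 0))) := by
    apply Tendsto.mul
    · exact (tendsto_const_nhds.div_atTop tendsto_log_inv).add tendsto_const_nhds
    · exact tendsto_const_nhds.add (tendsto_const_nhds.div_atTop tendsto_log_inv)
  simp only [zero_add, add_zero, mul_one] at h2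
  by_contra hcon
  push Not at hcon
  have h3 := h2.eventually_lt h1 hcon
  have hlt : ∀ᶠ η : ℝ in 𝓝[>] 0, η < 1 := by
    have : ∀ᶠ η : ℝ in 𝓝 0, η < 1 := gt_mem_nhds one_pos
    exact nhdsWithin_le_nhds this
  have hbig : ∀ᶠ η : ℝ in 𝓝[>] 0, -C1 < Real.log (1/η) :=
    tendsto_log_inv.eventually_gt_atTop _
  have hpos : ∀ᶠ η : ℝ in 𝓝[>] 0, 0 < η := self_mem_nhdsWithin
  obtain ⟨η, h4, h5, h6, h7, h8⟩ :=
    (hC0.and_eventually (h3.and (hpos.and (hlt.and hbig)))).exists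
  have hη : 0 < η := h6
  have hlog : 0 < Real.log (1/η) := by
    apply Real.log_pos
    rw [lt_div_iff₀ hη]
    linarith
  have h9 := hC1 η hη h7.le
  have hsq := (log_SQ H (hB.small j) hη (hB.summ j η hη)).1
  have hn : 0 < ‖SQ N P (B j) (1 + (i:ℂ) + (η:ℂ))‖ := norm_pos_iff.mpr hsq
  have hC0p : 0 < C0 := by
    have := lt_of_lt_of_le hn h4
    exact pos_of_mul_pos_left this (Real.rpow_nonneg hη.le _)
  have h10 : Real.log ‖SQ N P (B j) (1 + (i:ℂ) + (η:ℂ))‖ ≤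
      Real.log C0 + r * Real.log (1/η) := by
    refine (Real.log_le_log hn h4).trans (le_of_eq ?_)
    rw [Real.log_mul hC0p.ne' (Real.rpow_pos_of_pos hη _).ne', Real.log_rpow hη, one_div,
      Real.log_inv]
    ring
  have e1 : ∑ z ∈ S, Real.log ‖L j z.1 (1 + (i:ℂ)/2 + (η:ℂ) + (z.2:ℂ) * I)‖ ^ 2 =
      ∑ x ∈ T, Real.log ‖L j x.1 (x.2 + (η:ℂ))‖ ^ 2 := by
    rw [hS, Finset.sum_image hinj]
    apply Finset.sum_congr rfl
    intro x hx
    have e2 : 1 + (i:ℂ)/2 + (η:ℂ) + (x.2.im:ℂ) * I = x.2 + (η:ℂ) := by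
      apply Complex.ext
      · simp [hT x hx]
      · simp
    simp only [e2]
  rw [e1] at h9
  have h11 : ∑ x ∈ T, Real.log ‖L j x.1 (x.2 + (η:ℂ))‖ ^ 2 ≤
      (Real.log C0 + r * Real.log (1/η)) * (Real.log (1/η) + C1) :=
    h9.trans (mul_le_mul_of_nonneg_right h10 (by linarith))
  have h12 : ∑ x ∈ T, (Real.log ‖L j x.1 (x.2 + (η:ℂ))‖ / Real.log (1/η)) ^ 2 ≤
      (Real.log C0 / Real.log (1/η) + r) * (1 + C1 / Real.log (1/η)) := by
    have e3 : ∑ x ∈ T, (Real.log ‖L j x.1 (x.2 + (η:ℂ))‖ / Real.log (1/η)) ^ 2 =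
        (∑ x ∈ T, Real.log ‖L j x.1 (x.2 + (η:ℂ))‖ ^ 2) / Real.log (1/η) ^ 2 := by
      rw [Finset.sum_div]
      apply Finset.sum_congr rfl
      intro x _
      rw [div_pow]
    rw [e3, div_le_iff₀ (by positivity)]
    refine h11.trans (le_of_eq ?_)
    field_simp
  exact absurd h12 (not_le.mpr h5)

/-- The sum of the squares of all orders. -/
theorem orders_grow {i b : ℕ} {P : ℕ → Polynomial ℂ} (H : Hyp N i b P) (hB : RS N B)
    (L : J → J → ℂ → ℂ)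
    (hL : ∀ (j k : J) (s : ℂ), 1 + (i:ℝ)/2 < s.re → L j k s = EP N P (B j) (B k) s)
    (j : J) (hm : ∀ (k : J) (s : ℂ), s.re = 1 + (i:ℝ)/2 → MeromorphicAt (L j k) s)
    {r : ℝ} (hr : Grow N i P (B j) r) :
    ((∑ᶠ x ∈ {x : J × ℂ | x.2.re = 1 + (i:ℝ)/2},
      (meromorphicOrderAt (L j x.1) x.2).untop₀ ^ 2 : ℤ) : ℝ) ≤ r := by
  classical
  obtain ⟨htop, hfin, -⟩ := orders_sq H hB L hL j hm
  have e : ∑ᶠ x ∈ {x : J × ℂ | x.2.re = 1 + (i:ℝ)/2},
      (meromorphicOrderAt (L j x.1) x.2).untop₀ ^ 2 =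
      ∑ x ∈ hfin.toFinset, (meromorphicOrderAt (L j x.1) x.2).untop₀ ^ 2 := by
    apply finsum_mem_eq_sum_of_subset
    · rintro x ⟨hx, hx0⟩
      rw [Function.mem_support] at hx0
      rw [Finset.mem_coe, Set.Finite.mem_toFinset]
      refine ⟨hx, fun h => hx0 ?_⟩
      rw [h]
      rfl
    · intro x hx
      rw [Finset.mem_coe, Set.Finite.mem_toFinset] at hx
      exact hx.1
  rw [e]
  push_cast
  refine finite_sq H hB L hL j hr _ (fun x hx => ?_) (fun x hx => ?_) (fun x hx => ?_)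
  · rw [Set.Finite.mem_toFinset] at hx
    exact hx.1
  · rw [Set.Finite.mem_toFinset] at hx
    exact hm _ _ hx.1
  · rw [Set.Finite.mem_toFinset] at hx
    exact htop _ _ hx.1

/-! ### Primitive characters -/

abbrev PC : Type := {ψ : ℕ → ℂ // Prim ψ}

theorem prim_grow {i b : ℕ} {P : ℕ → Polynomial ℂ} (H : Hyp N i b P)
    (L : PC → ℂ → ℂ)
    (hL : ∀ (ψ : PC) (s : ℂ), 1 + (i:ℝ)/2 < s.re →
      L ψ s = ∏' p : {p : ℕ // p.Prime ∧ ¬ p ∣ N}, ((P p).eval (ψ.1 p * (p:ℂ) ^ (-s)))⁻¹)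
    (hm : ∀ (ψ : PC) (s : ℂ), s.re = 1 + (i:ℝ)/2 → MeromorphicAt (L ψ) s)
    {r : ℝ} (hr : Grow N i P (fun _ => {1}) r) :
    ((∑ᶠ x ∈ {x : PC × ℂ | x.2.re = 1 + (i:ℝ)/2},
      (meromorphicOrderAt (L x.1) x.2).untop₀ ^ 2 : ℤ) : ℝ) ≤ r := by
  classical
  set B : PC → ℕ → Multiset ℂ := fun ψ p =>
    ({ψ.1 p} : Multiset ℂ).map (starRingEnd ℂ) with hB
  have hRS : RS N B := (rs_prim H.N0).conj
  set L' : PC → PC → ℂ → ℂ := fun j k =>
    if j = pone then L k else EP N P (B j) (B k) with hL'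
  have h1 : ∀ (j k : PC) (s : ℂ), 1 + (i:ℝ)/2 < s.re →
      L' j k s = EP N P (B j) (B k) s := by
    intro j k s hs
    rw [hL']
    simp only
    by_cases hj : j = pone
    · rw [if_pos hj, hL k s hs, EP]
      apply tprod_congr
      intro p
      subst hj
      simp [hB, dp, pone]
    · rw [if_neg hj]
  have hr' : Grow N i P (B pone) r := by
    have : B pone = fun _ => ({1} : Multiset ℂ) := by
      funext p
      simp [hB, pone]
    rw [this]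
    exact hr
  have h2 := orders_grow H hRS L' h1 pone (by
    intro k s hs
    rw [hL']
    simp only [if_true]
    exact hm k s hs) hr'
  simpa only [hL', if_true] using h2

/-- the complex conjugate of a primitive character -/
noncomputable def cj (ψ : PC) : PC :=
  ⟨fun n => (starRingEnd ℂ) (ψ.1 n), by
    obtain ⟨q, χ, hq, hp, hψ⟩ := ψ.2
    refine ⟨q, χ⁻¹, hq, ?_, ?_⟩
    · rw [DirichletCharacter.isPrimitive_def, DirichletCharacter.conductor_inv]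
      exact hp
    · funext n
      rw [hψ]
      exact MulChar.star_apply' χ _⟩

theorem norm_cj {i b : ℕ} {P : ℕ → Polynomial ℂ} (H : Hyp N i b P)
    (hreal : ∀ p : ℕ, p.Prime → ¬ p ∣ N → ∀ n, (starRingEnd ℂ) ((P p).coeff n) = (P p).coeff n)
    (L : PC → ℂ → ℂ)
    (hL : ∀ (ψ : PC) (s : ℂ), 1 + (i:ℝ)/2 < s.re →
      L ψ s = ∏' p : {p : ℕ // p.Prime ∧ ¬ p ∣ N}, ((P p).eval (ψ.1 p * (p:ℂ) ^ (-s)))⁻¹)
    (ψ : PC) {s : ℂ} (hs : 1 + (i:ℝ)/2 < s.re) :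
    ‖L (cj ψ) ((starRingEnd ℂ) s)‖ = ‖L ψ s‖ := by
  rw [hL _ _ (by rw [Complex.conj_re]; exact hs), hL _ _ hs]
  have h1 := hasProd_L (hyp_tw H ψ.2.norm_le_one) hs
  simp only [tw_eval] at h1
  have h2 := h1.map (starRingEnd ℂ) Complex.continuous_conj
  have h3 : HasProd (fun p : {p : ℕ // p.Prime ∧ ¬ p ∣ N} =>
      ((P p).eval ((cj ψ).1 p * (p:ℂ) ^ (-(starRingEnd ℂ) s)))⁻¹)
      ((starRingEnd ℂ) (∏' p : {p : ℕ // p.Prime ∧ ¬ p ∣ N},
        ((P p).eval (ψ.1 p * (p:ℂ) ^ (-s)))⁻¹)) := by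
    rw [h1.tprod_eq]
    refine h2.congr_fun ?_
    intro p
    have hp := hreal p p.2.1 p.2.2
    have e1 : (P p).map (starRingEnd ℂ) = P p := by
      ext n
      rw [Polynomial.coeff_map]
      exact hp n
    have e2 : ∀ z : ℂ, (starRingEnd ℂ) ((P p).eval z) = (P p).eval ((starRingEnd ℂ) z) := by
      intro z
      conv_rhs => rw [← e1]
      rw [Polynomial.eval_map, Polynomial.eval₂_hom]
    have e3 : (starRingEnd ℂ) (((p:ℕ):ℂ) ^ (-s)) = ((p:ℕ):ℂ) ^ (-(starRingEnd ℂ) s) := by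
      have h4 := Complex.cpow_conj ((p:ℕ):ℂ) (-s) (by
        rw [Complex.natCast_arg]
        exact Real.pi_ne_zero.symm)
      rw [map_neg, Complex.conj_natCast] at h4
      exact h4.symm
    simp only [Function.comp]
    rw [map_inv₀, e2, map_mul, e3]
    rfl
  rw [h3.tprod_eq, RCLike.norm_conj]

/-- The order at the conjugate point of the twist by the conjugate character. -/
theorem order_cj {i b : ℕ} {P : ℕ → Polynomial ℂ} (H : Hyp N i b P)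
    (hreal : ∀ p : ℕ, p.Prime → ¬ p ∣ N → ∀ n, (starRingEnd ℂ) ((P p).coeff n) = (P p).coeff n)
    (L : PC → ℂ → ℂ)
    (hL : ∀ (ψ : PC) (s : ℂ), 1 + (i:ℝ)/2 < s.re →
      L ψ s = ∏' p : {p : ℕ // p.Prime ∧ ¬ p ∣ N}, ((P p).eval (ψ.1 p * (p:ℂ) ^ (-s)))⁻¹)
    (hm : ∀ (ψ : PC) (s : ℂ), s.re = 1 + (i:ℝ)/2 → MeromorphicAt (L ψ) s)
    (ψ : PC) {s : ℂ} (hs : s.re = 1 + (i:ℝ)/2) :
    meromorphicOrderAt (L (cj ψ)) ((starRingEnd ℂ) s) = meromorphicOrderAt (L ψ) s := by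
  obtain ⟨htop, -, -⟩ := prim_sq H L hL hm
  have hs' : ((starRingEnd ℂ) s).re = 1 + (i:ℝ)/2 := by rw [Complex.conj_re]; exact hs
  have h1 := radial (hm ψ s hs) (htop ψ s hs)
  have h2 := radial (hm (cj ψ) _ hs') (htop (cj ψ) _ hs')
  have h3 : Tendsto (fun η : ℝ => Real.log ‖L ψ (s + η)‖ / Real.log (1/η)) (𝓝[>] 0)
      (𝓝 (-((meromorphicOrderAt (L (cj ψ)) ((starRingEnd ℂ) s)).untop₀ : ℝ))) := by
    refine h2.congr' ?_
    filter_upwards [self_mem_nhdsWithin] with η hη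
    have hη' : 0 < η := hη
    have e1 : (starRingEnd ℂ) s + (η:ℂ) = (starRingEnd ℂ) (s + (η:ℂ)) := by
      rw [map_add, Complex.conj_ofReal]
    rw [e1, norm_cj H hreal L hL ψ (by
      rw [Complex.add_re, Complex.ofReal_re, hs]
      linarith)]
  have h4 := tendsto_nhds_unique h1 h3
  have h5 : (meromorphicOrderAt (L (cj ψ)) ((starRingEnd ℂ) s)).untop₀ =
      (meromorphicOrderAt (L ψ) s).untop₀ := by
    have := neg_injective h4
    exact_mod_cast this.symm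
  rw [← WithTop.coe_untop₀_of_ne_top (htop _ _ hs'), h5,
    WithTop.coe_untop₀_of_ne_top (htop _ _ hs)]

/-- At most one exceptional pair. -/
theorem prim_one {i b : ℕ} {P : ℕ → Polynomial ℂ} (H : Hyp N i b P)
    (L : PC → ℂ → ℂ)
    (hL : ∀ (ψ : PC) (s : ℂ), 1 + (i:ℝ)/2 < s.re →
      L ψ s = ∏' p : {p : ℕ // p.Prime ∧ ¬ p ∣ N}, ((P p).eval (ψ.1 p * (p:ℂ) ^ (-s)))⁻¹)
    (hm : ∀ (ψ : PC) (s : ℂ), s.re = 1 + (i:ℝ)/2 → MeromorphicAt (L ψ) s)
    {r : ℝ} (hr : Grow N i P (fun _ => {1}) r) (hr2 : r < 2) :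
    (∀ x y : PC × ℂ, x.2.re = 1 + (i:ℝ)/2 → y.2.re = 1 + (i:ℝ)/2 →
      meromorphicOrderAt (L x.1) x.2 ≠ 0 → meromorphicOrderAt (L y.1) y.2 ≠ 0 → x = y) ∧
    (∀ (ψ : PC) (s : ℂ), s.re = 1 + (i:ℝ)/2 → meromorphicOrderAt (L ψ) s ≠ 0 →
      (meromorphicOrderAt (L ψ) s = 1 ∨ meromorphicOrderAt (L ψ) s = -1) ∧
      ((∀ p : ℕ, p.Prime → ¬ p ∣ N →
          ∀ n, (starRingEnd ℂ) ((P p).coeff n) = (P p).coeff n) →
        (∀ n, (starRingEnd ℂ) (ψ.1 n) = ψ.1 n) ∧ s = 1 + (i:ℂ)/2)) := by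
  classical
  obtain ⟨htop, hfin, -⟩ := prim_sq H L hL hm
  have hsum := prim_grow H L hL hm hr
  have e : ∑ᶠ x ∈ {x : PC × ℂ | x.2.re = 1 + (i:ℝ)/2},
      (meromorphicOrderAt (L x.1) x.2).untop₀ ^ 2 =
      ∑ x ∈ hfin.toFinset, (meromorphicOrderAt (L x.1) x.2).untop₀ ^ 2 := by
    apply finsum_mem_eq_sum_of_subset
    · rintro x ⟨hx, hx0⟩
      rw [Function.mem_support] at hx0
      rw [Finset.mem_coe, Set.Finite.mem_toFinset]
      refine ⟨hx, fun h => hx0 ?_⟩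
      rw [h]
      rfl
    · intro x hx
      rw [Finset.mem_coe, Set.Finite.mem_toFinset] at hx
      exact hx.1
  rw [e] at hsum
  have hint : ∑ x ∈ hfin.toFinset, (meromorphicOrderAt (L x.1) x.2).untop₀ ^ 2 < 2 := by
    have : ((∑ x ∈ hfin.toFinset, (meromorphicOrderAt (L x.1) x.2).untop₀ ^ 2 : ℤ) : ℝ) <
        ((2 : ℤ) : ℝ) := lt_of_le_of_lt hsum (by push_cast; exact hr2)
    exact_mod_cast this
  have hmem : ∀ x : PC × ℂ, x.2.re = 1 + (i:ℝ)/2 → meromorphicOrderAt (L x.1) x.2 ≠ 0 →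
      x ∈ hfin.toFinset := by
    intro x hx hx0
    rw [Set.Finite.mem_toFinset]
    exact ⟨hx, hx0⟩
  have hne : ∀ x : PC × ℂ, x.2.re = 1 + (i:ℝ)/2 → meromorphicOrderAt (L x.1) x.2 ≠ 0 →
      1 ≤ (meromorphicOrderAt (L x.1) x.2).untop₀ ^ 2 := by
    intro x hx hx0
    have h1 : (meromorphicOrderAt (L x.1) x.2).untop₀ ≠ 0 := by
      intro h
      rw [← WithTop.coe_untop₀_of_ne_top (htop _ _ hx), h] at hx0
      exact hx0 rfl
    have := sq_nonneg ((meromorphicOrderAt (L x.1) x.2).untop₀)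
    rcases this.lt_or_eq with h | h
    · omega
    · exact absurd (pow_eq_zero_iff (two_ne_zero) |>.mp h.symm) h1
  have huniq : ∀ x y : PC × ℂ, x.2.re = 1 + (i:ℝ)/2 → y.2.re = 1 + (i:ℝ)/2 →
      meromorphicOrderAt (L x.1) x.2 ≠ 0 → meromorphicOrderAt (L y.1) y.2 ≠ 0 → x = y := by
    intro x y hx hy hx0 hy0
    by_contra hxy
    have h1 : ∑ z ∈ ({x, y} : Finset (PC × ℂ)), (meromorphicOrderAt (L z.1) z.2).untop₀ ^ 2 ≤
        ∑ z ∈ hfin.toFinset, (meromorphicOrderAt (L z.1) z.2).untop₀ ^ 2 := by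
      apply Finset.sum_le_sum_of_subset_of_nonneg
      · intro z hz
        rw [Finset.mem_insert, Finset.mem_singleton] at hz
        rcases hz with rfl | rfl
        · exact hmem _ hx hx0
        · exact hmem _ hy hy0
      · intro z _ _
        exact sq_nonneg _
    rw [Finset.sum_pair hxy] at h1
    have h2 := hne x hx hx0
    have h3 := hne y hy hy0
    omega
  have hone : ∀ x : PC × ℂ, x.2.re = 1 + (i:ℝ)/2 → meromorphicOrderAt (L x.1) x.2 ≠ 0 →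
      (meromorphicOrderAt (L x.1) x.2).untop₀ ^ 2 = 1 := by
    intro x hx hx0
    have h1 := hne x hx hx0
    have h2 := Finset.single_le_sum
      (f := fun z : PC × ℂ => (meromorphicOrderAt (L z.1) z.2).untop₀ ^ 2)
      (fun z _ => sq_nonneg _) (hmem x hx hx0)
    have h3 := lt_of_le_of_lt h2 hint
    omega
  refine ⟨huniq, fun ψ s hs h0 => ⟨?_, fun hreal => ?_⟩⟩
  · have h3 := hone (ψ, s) hs h0
    have h5 := htop ψ s hs
    generalize meromorphicOrderAt (L ψ) s = o at h3 h5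
    have h6 : o.untop₀ = 1 ∨ o.untop₀ = -1 := by
      rw [pow_two] at h3
      exact mul_self_eq_one_iff.mp h3
    rcases h6 with h4 | h4
    · left
      rw [← WithTop.coe_untop₀_of_ne_top h5, h4]
      rfl
    · right
      rw [← WithTop.coe_untop₀_of_ne_top h5, h4]
      rfl
  · have h1 := order_cj H hreal L hL hm ψ hs
    have h2 := huniq (cj ψ, (starRingEnd ℂ) s) (ψ, s) (by
      simp only [Complex.conj_re]
      exact hs) hs (by
      simp only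
      rw [h1]
      exact h0) h0
    simp only [Prod.mk.injEq] at h2
    refine ⟨fun n => ?_, ?_⟩
    · have := congrArg (fun χ : PC => χ.1 n) h2.1
      exact this
    · have h3 : s.im = 0 := Complex.conj_eq_iff_im.mp h2.2
      apply Complex.ext
      · rw [hs]
        simp
      · rw [h3]
        simp

end Pool.Agent.H5.ATW2

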