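import Pool.Agent.H41.ATW.Main

/-! The Rankin-Selberg square of an Euler product, and a Bessel inequality for the twists of one
member of a Rankin-Selberg family. -/

open Complex Filter Topology

namespace Pool.Agent.H5.ATW2

open Pool.Agent.H89.EdgeBasic Pool.Agent.H89.EdgeOrd Pool.Agent.H41.ATW

variable {N : ℕ}

lemma factor_lt' {i b : ℕ} {P : ℕ → Polynomial ℂ} (H : Hyp N i b P) {B C : ℕ → Multiset ℂ}
    (hB : ∀ (p : Idx N), ∀ β ∈ B p, ‖β‖ ^ 2 < (p : ℝ))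
    (hC : ∀ (p : Idx N), ∀ β ∈ C p, ‖β‖ ^ 2 < (p : ℝ))
    (p : Idx N) {s : ℂ} (hs : 1 + (i:ℝ)/2 < s.re) {d : ℂ} (hd : d ∈ dp (B p) (C p)) {r : ℂ}
    (hr : r ∈ (P p).roots) : ‖d * (p:ℂ)^(-s) / r‖ < 1 := by
  have h1 := root_bound H p hs hr
  have h2 : ‖d‖ < (p : ℝ) := by
    unfold dp at hd
    rw [Multiset.mem_map] at hd
    obtain ⟨c, hc, rfl⟩ := hd
    rw [Multiset.mem_product] at hc
    have h1 := hB p c.1 hc.1
    have h2 := hC p c.2 hc.2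
    rw [norm_mul, RCLike.norm_conj]
    nlinarith [sq_nonneg (‖c.1‖ - ‖c.2‖)]
  have hp := idx_pos p
  rw [mul_div_assoc, norm_mul]
  calc ‖d‖ * ‖(p:ℂ)^(-s) / r‖ ≤ ‖d‖ * (p:ℝ)⁻¹ := by gcongr
    _ < (p:ℝ) * (p:ℝ)⁻¹ := by
        apply mul_lt_mul_of_pos_right h2
        positivity
    _ = 1 := mul_inv_cancel₀ hp.ne'

/-- The exact formula for the logarithm of the absolute value of the Euler product; no
Rankin-Selberg hypothesis. -/
theorem log_EP' {i b : ℕ} {P : ℕ → Polynomial ℂ} (H : Hyp N i b P) {B C : ℕ → Multiset ℂ}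
    (hB : ∀ (p : Idx N), ∀ β ∈ B p, ‖β‖ ^ 2 < (p : ℝ))
    (hC : ∀ (p : Idx N), ∀ β ∈ C p, ‖β‖ ^ 2 < (p : ℝ))
    {η : ℝ} (h0 : 0 < η)
    (hBs : Summable fun x : Ix N => w η x * ‖ps (B x.1) (x.2 + 1)‖ ^ 2)
    (hCs : Summable fun x : Ix N => w η x * ‖ps (C x.1) (x.2 + 1)‖ ^ 2) (θ : ℝ) :
    EP N P B C (1 + (i:ℂ)/2 + (η:ℂ) + (θ:ℂ) * I) ≠ 0 ∧
    Real.log ‖EP N P B C (1 + (i:ℂ)/2 + (η:ℂ) + (θ:ℂ) * I)‖ =
      (∑' x : Ix N, (w η x : ℂ) * (aa P i x * (ps (B x.1) (x.2 + 1) *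
        (starRingEnd ℂ) (ps (C x.1) (x.2 + 1)) * ch x.1 θ ^ (x.2 + 1)))).re := by
  set s : ℂ := 1 + (i:ℂ)/2 + (η:ℂ) + (θ:ℂ) * I with hsdef
  have hs : 1 + (i:ℝ)/2 < s.re := by
    rw [hsdef]
    simp
    exact h0
  set f : Ix N → ℂ := fun x => (w η x : ℂ) * (aa P i x * (ps (B x.1) (x.2 + 1) *
        (starRingEnd ℂ) (ps (C x.1) (x.2 + 1)) * ch x.1 θ ^ (x.2 + 1))) with hf
  have hfs : Summable f := by
    have h1 : Summable fun x : Ix N => w η x * ‖aa P i x * (ps (B x.1) (x.2 + 1) *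
        ch x.1 θ ^ (x.2 + 1))‖ ^ 2 := by
      refine Summable.of_nonneg_of_le (fun x => by have := (w_pos η x).le; positivity)
        (fun x => ?_) (hBs.mul_left ((b:ℝ) ^ 2))
      rw [norm_mul, norm_mul, norm_pow, norm_ch, one_pow, mul_one, mul_pow]
      have h3 : ‖aa P i x‖ ^ 2 ≤ (b:ℝ) ^ 2 := pow_le_pow_left₀ (norm_nonneg _) (aa_norm_le H x) 2
      have h4 : 0 ≤ w η x * ‖ps (B x.1) (x.2 + 1)‖ ^ 2 := by
        have := (w_pos η x).le
        positivity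
      calc w η x * (‖aa P i x‖ ^ 2 * ‖ps (B x.1) (x.2 + 1)‖ ^ 2)
          = ‖aa P i x‖ ^ 2 * (w η x * ‖ps (B x.1) (x.2 + 1)‖ ^ 2) := by ring
        _ ≤ _ := mul_le_mul_of_nonneg_right h3 h4
    have h2 := summable_prod h1 (g := fun x => (starRingEnd ℂ) (ps (C x.1) (x.2 + 1)))
      (by simpa only [RCLike.norm_conj] using hCs)
    refine h2.congr (fun x => ?_)
    rw [hf]
    ring
  have hz : ∀ p : Idx N, (p:ℂ)^(-s) = (p:ℂ)^(-((i:ℂ)/2)) * ((q p η : ℂ) * ch p θ) :=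
    fun p => cpow_split' p i η θ
  have hfib : ∀ p : Idx N, HasSum (fun k' : ℕ => f (p, k'))
      (LL (P p) (dp (B p) (C p)) ((p:ℂ)^(-s))) := by
    intro p
    have h1 := hasSum_LL (P p) (dp (B p) (C p)) ((p:ℂ)^(-((i:ℂ)/2))) ((q p η : ℂ) * ch p θ)
      (fun d hd r hr => by
        rw [← hz p]
        exact factor_lt' H hB hC p hs hd hr)
    rw [← hz p] at h1
    refine h1.congr_fun ?_
    intro k'
    rw [hf]
    simp only [w, aa, ps_dp]
    push_cast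
    rw [mul_pow]
    ring
  have h1 := hfs.hasSum.prod_fiberwise hfib
  have h2 : HasProd (fun p : Idx N => ((dp (B p) (C p)).map fun c =>
      ((P p).eval (c * (p : ℂ) ^ (-s)))⁻¹).prod) (Complex.exp (∑' x, f x)) := by
    refine h1.cexp.congr ?_
    intro t
    apply Finset.prod_congr rfl
    intro p _
    simp only [Function.comp]
    exact exp_LL _ (H.h0 p p.2.1 p.2.2) _ _ (fun d hd r hr => factor_lt' H hB hC p hs hd hr)
  have h3 : EP N P B C s = Complex.exp (∑' x, f x) := h2.tprod_eq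
  rw [h3]
  refine ⟨Complex.exp_ne_zero _, ?_⟩
  rw [Complex.norm_exp, Real.log_exp]

/-- The Rankin-Selberg square, at the prime `p`: the factors `P_p (x * conj (y / z) * p ^ (-s))⁻¹`
for `x`, `y` in `B` and `z` a root of `P_p`. -/
noncomputable def SQ (N : ℕ) (P : ℕ → Polynomial ℂ) (B : ℕ → Multiset ℂ) (s : ℂ) : ℂ :=
  ∏' p : {p : ℕ // p.Prime ∧ ¬ p ∣ N},
    ((B p ×ˢ (B p ×ˢ (P p).roots)).map fun c =>
      ((P p).eval (c.1 * (starRingEnd ℂ) (c.2.1 / c.2.2) * (p : ℂ) ^ (-s)))⁻¹).prod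

/-- the products of a member of `B` and a normalised reciprocal root -/
noncomputable def BR (P : ℕ → Polynomial ℂ) (i : ℕ) (B : ℕ → Multiset ℂ) (p : ℕ) :
    Multiset ℂ :=
  (B p ×ˢ (P p).roots).map fun c => c.1 * (c.2⁻¹ * (p : ℂ) ^ (-((i : ℂ) / 2)))

lemma ps_BR (P : ℕ → Polynomial ℂ) (i : ℕ) (B : ℕ → Multiset ℂ) (x : Ix N) :
    ps (BR P i B x.1) (x.2 + 1) = ps (B x.1) (x.2 + 1) * aa P i x := by
  have h : ∀ (C D : Multiset ℂ) (n : ℕ) (c : ℂ),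
      ps ((C ×ˢ D).map fun u => u.1 * (u.2⁻¹ * c)) n = ps C n * ps (D.map fun r => r⁻¹ * c) n := by
    intro C D n c
    induction C using Multiset.induction_on with
    | empty => simp [ps]
    | cons a C ih =>
      have h1 : ((a ::ₘ C) ×ˢ D).map (fun u : ℂ × ℂ => u.1 * (u.2⁻¹ * c)) =
          (D.map fun r => a * (r⁻¹ * c)) + (C ×ˢ D).map fun u => u.1 * (u.2⁻¹ * c) := by
        simp [Multiset.cons_product, Multiset.map_map]
      rw [h1, ps_add, ih, ps_cons, add_mul]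
      congr 1
      rw [ps, ps, Multiset.map_map, Multiset.map_map, ← Multiset.sum_map_mul_left]
      apply congrArg
      apply Multiset.map_congr rfl
      intro r _
      simp [mul_pow]
  exact h _ _ _ _

lemma small_BR {i b : ℕ} {P : ℕ → Polynomial ℂ} (H : Hyp N i b P) {B : ℕ → Multiset ℂ}
    (hB : ∀ (p : Idx N), ∀ β ∈ B p, ‖β‖ ^ 2 < (p : ℝ)) (p : Idx N) :
    ∀ β ∈ BR P i B p, ‖β‖ ^ 2 < (p : ℝ) := by
  intro β hβ
  unfold BR at hβ
  rw [Multiset.mem_map] at hβ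
  obtain ⟨c, hc, rfl⟩ := hβ
  rw [Multiset.mem_product] at hc
  have h1 := hB p c.1 hc.1
  have h3 := root_inv_le H p hc.2
  have h4 : ‖c.2⁻¹ * (p : ℂ) ^ (-((i : ℂ) / 2))‖ ≤ 1 := by
    rw [norm_mul, Pool.Agent.H89.EdgeBasic.norm_half]
    calc ‖c.2⁻¹‖ * (p : ℝ) ^ (-((i : ℝ) / 2))
        ≤ (p : ℝ) ^ ((i : ℝ) / 2) * (p : ℝ) ^ (-((i : ℝ) / 2)) := by
          gcongr
      _ = 1 := by
          rw [← Real.rpow_add (idx_pos p)]
          simp
  rw [norm_mul, mul_pow]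
  calc ‖c.1‖ ^ 2 * ‖c.2⁻¹ * (p : ℂ) ^ (-((i : ℂ) / 2))‖ ^ 2 ≤ ‖c.1‖ ^ 2 * 1 := by
        gcongr
        exact pow_le_one₀ (norm_nonneg _) h4
    _ < _ := by rw [mul_one]; exact h1

lemma summ_aa {i b : ℕ} {P : ℕ → Polynomial ℂ} (H : Hyp N i b P) {η : ℝ} {f : Ix N → ℂ}
    (hf : Summable fun x : Ix N => w η x * ‖f x‖ ^ 2) :
    Summable fun x : Ix N => w η x * ‖aa P i x * f x‖ ^ 2 := by
  refine Summable.of_nonneg_of_le (fun x => by have := (w_pos η x).le; positivity) (fun x => ?_)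
    (hf.mul_left ((b:ℝ) ^ 2))
  rw [norm_mul, mul_pow]
  have h3 : ‖aa P i x‖ ^ 2 ≤ (b:ℝ) ^ 2 := pow_le_pow_left₀ (norm_nonneg _) (aa_norm_le H x) 2
  have h4 : 0 ≤ w η x * ‖f x‖ ^ 2 := by
    have := (w_pos η x).le
    positivity
  calc w η x * (‖aa P i x‖ ^ 2 * ‖f x‖ ^ 2) = ‖aa P i x‖ ^ 2 * (w η x * ‖f x‖ ^ 2) := by ring
    _ ≤ _ := mul_le_mul_of_nonneg_right h3 h4

lemma product_map_right {α β γ : Type*} (A : Multiset α) (D : Multiset β) (g : β → γ) :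
    A ×ˢ (D.map g) = (A ×ˢ D).map fun c => (c.1, g c.2) := by
  induction A using Multiset.induction_on with
  | empty => simp
  | cons a A ih =>
    rw [Multiset.cons_product, Multiset.cons_product, Multiset.map_add, ih, Multiset.map_map,
      Multiset.map_map]
    rfl

/-- The square in terms of `EP`. -/
lemma SQ_eq (i : ℕ) (P : ℕ → Polynomial ℂ) (B : ℕ → Multiset ℂ) (η : ℝ) :
    SQ N P B (1 + (i:ℂ) + (η:ℂ)) =
      EP N P B (BR P i B) (1 + (i:ℂ)/2 + (η:ℂ) + ((0:ℝ):ℂ) * I) := by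
  rw [SQ, EP]
  apply tprod_congr
  intro p
  rw [dp, BR, product_map_right, Multiset.map_map, Multiset.map_map]
  apply congrArg
  apply Multiset.map_congr rfl
  intro c _
  simp only [Function.comp]
  congr 2
  have hp : ((p:ℕ):ℂ) ≠ 0 := idx_ne p
  have e1 : (starRingEnd ℂ) (((p:ℕ):ℂ) ^ (-((i:ℂ)/2))) = ((p:ℕ):ℂ) ^ (-((i:ℂ)/2)) := by
    have h1 : ((p:ℕ):ℂ) ^ (-((i:ℂ)/2)) = ((((p:ℕ):ℝ) ^ (-((i:ℝ)/2)) : ℝ) : ℂ) := by
      rw [Complex.ofReal_cpow (Nat.cast_nonneg _)]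
      push_cast
      rfl
    rw [h1, Complex.conj_ofReal]
  have e2 : ((p:ℕ):ℂ) ^ (-(1 + (i:ℂ) + (η:ℂ))) = ((p:ℕ):ℂ) ^ (-((i:ℂ)/2)) *
      ((p:ℕ):ℂ) ^ (-(1 + (i:ℂ)/2 + (η:ℂ) + ((0:ℝ):ℂ) * I)) := by
    rw [← Complex.cpow_add _ _ hp]
    congr 1
    push_cast
    ring
  rw [e2, map_mul, map_mul, e1, div_eq_mul_inv, map_mul]
  ring

/-- The logarithm of the absolute value of the square. -/
theorem log_SQ {i b : ℕ} {P : ℕ → Polynomial ℂ} (H : Hyp N i b P) {B : ℕ → Multiset ℂ}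
    (hB : ∀ (p : Idx N), ∀ β ∈ B p, ‖β‖ ^ 2 < (p : ℝ)) {η : ℝ} (h0 : 0 < η)
    (hBs : Summable fun x : Ix N => w η x * ‖ps (B x.1) (x.2 + 1)‖ ^ 2) :
    SQ N P B (1 + (i:ℂ) + (η:ℂ)) ≠ 0 ∧
    Real.log ‖SQ N P B (1 + (i:ℂ) + (η:ℂ))‖ =
      ∑' x : Ix N, w η x * ‖aa P i x * ps (B x.1) (x.2 + 1)‖ ^ 2 := by
  have hCs : Summable fun x : Ix N => w η x * ‖ps (BR P i B x.1) (x.2 + 1)‖ ^ 2 := by
    refine (summ_aa H hBs).congr (fun x => ?_)
    rw [ps_BR, mul_comm (aa P i x)]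
  obtain ⟨h1, h2⟩ := log_EP' H hB (small_BR H hB) h0 hBs hCs 0
  rw [SQ_eq]
  refine ⟨h1, h2.trans ?_⟩
  have e : ∀ x : Ix N, (w η x : ℂ) * (aa P i x * (ps (B x.1) (x.2 + 1) *
        (starRingEnd ℂ) (ps (BR P i B x.1) (x.2 + 1)) * ch x.1 0 ^ (x.2 + 1))) =
      ((w η x * ‖aa P i x * ps (B x.1) (x.2 + 1)‖ ^ 2 : ℝ) : ℂ) := by
    intro x
    rw [ps_BR, ch_zero, one_pow, mul_one]
    push_cast
    rw [← Complex.mul_conj', map_mul, map_mul]
    ring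
  simp_rw [e]
  rw [← Complex.ofReal_tsum, Complex.ofReal_re]

variable {J : Type} {B : J → ℕ → Multiset ℂ}

/-- Bessel inequality for the twists of one member, quadratic form. -/
lemma besselW {i b : ℕ} {P : ℕ → Polynomial ℂ} (H : Hyp N i b P) (hB : RS N B) (j : J)
    (S : Finset (J × ℝ)) :
    ∃ C : ℝ, 0 ≤ C ∧ ∀ η : ℝ, 0 < η → η ≤ 1 → ∀ u : J × ℝ → ℝ,
      |∑ z ∈ S, u z *
        (∑' x : Ix N, (w η x : ℂ) * (aa P i x * (gv B (j, 0) x * (starRingEnd ℂ) (gv B z x)))).re| ≤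
      Real.sqrt (∑' x : Ix N, w η x * ‖aa P i x * ps (B j x.1) (x.2 + 1)‖ ^ 2) *
        Real.sqrt ((Real.log (1/η) + C) * ∑ z ∈ S, u z ^ 2) := by
  classical
  have hs : ∀ (y : J × ℝ) η, 0 < η → Summable fun x : Ix N => w η x * ‖gv B y x‖ ^ 2 := by
    intro y η hη
    simp_rw [norm_gv]
    exact hB.summ y.1 η hη
  have hc : ∀ y z : J × ℝ, ∃ C : ℝ, 0 ≤ C ∧ ∀ η : ℝ, 0 < η → η ≤ 1 →
      |(∑' x : Ix N, (w η x : ℂ) * (gv B y x * (starRingEnd ℂ) (gv B z x))).re| ≤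
        (if y = z then Real.log (1/η) else 0) + C := by
    intro y z
    by_cases hyz : y = z
    · subst hyz
      obtain ⟨C, hC⟩ := hB.diag y.1
      refine ⟨max C 0, le_max_right _ _, fun η h0 h1 => ?_⟩
      rw [if_pos rfl]
      have e1 : ∀ x : Ix N, (w η x : ℂ) * (gv B y x * (starRingEnd ℂ) (gv B y x)) =
          ((w η x * ‖ps (B y.1 x.1) (x.2 + 1)‖ ^ 2 : ℝ) : ℂ) := by
        intro x
        rw [Complex.mul_conj', norm_gv]
        push_cast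
        ring
      simp_rw [e1]
      rw [← Complex.ofReal_tsum, Complex.ofReal_re, abs_of_nonneg (tsum_nonneg fun x => by
        have := (w_pos η x).le
        positivity)]
      exact (hC η h0 h1).trans (by gcongr; exact le_max_left _ _)
    · have h : y.1 ≠ z.1 ∨ y.2 - z.2 ≠ 0 := by
        by_contra hcon
        push Not at hcon
        exact hyz (Prod.ext hcon.1 (sub_eq_zero.mp hcon.2))
      obtain ⟨C, hC⟩ := hB.cross y.1 z.1 (y.2 - z.2) h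
      refine ⟨max C 0, le_max_right _ _, fun η h0 h1 => ?_⟩
      rw [if_neg hyz, zero_add]
      simp_rw [gv_mul]
      exact (hC η h0 h1).trans (le_max_left _ _)
  obtain ⟨C, hC, hq⟩ := quadW S (fun y => gv B y) hs hc
  refine ⟨C, hC, ?_⟩
  intro η h0 h1 u
  obtain ⟨hsw, hbw⟩ := hq η h0 h1 u
  have hsa : Summable (fun x : Ix N => w η x * ‖aa P i x * gv B (j, 0) x‖ ^ 2) :=
    summ_aa H (hs (j, 0) η h0)
  have hsY : ∀ z : J × ℝ, Summable (fun x : Ix N => (w η x : ℂ) *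
      (aa P i x * (gv B (j, 0) x * (starRingEnd ℂ) (gv B z x)))) := by
    intro z
    have h2 := summable_prod hsa
      (g := fun x => (starRingEnd ℂ) (gv B z x)) (by simpa only [RCLike.norm_conj] using hs z η h0)
    refine h2.congr (fun x => ?_)
    ring
  have hmain : ∑ z ∈ S, u z *
        (∑' x : Ix N, (w η x : ℂ) * (aa P i x * (gv B (j, 0) x * (starRingEnd ℂ) (gv B z x)))).re =
      (∑' x : Ix N, (w η x : ℂ) * ((aa P i x * gv B (j, 0) x) *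
        (starRingEnd ℂ) (∑ z ∈ S, (u z : ℂ) * gv B z x))).re := by
    have e1 : ∀ x : Ix N, (w η x : ℂ) * ((aa P i x * gv B (j, 0) x) *
        (starRingEnd ℂ) (∑ z ∈ S, (u z : ℂ) * gv B z x)) =
        ∑ z ∈ S, ((u z : ℝ) : ℂ) * ((w η x : ℂ) *
          (aa P i x * (gv B (j, 0) x * (starRingEnd ℂ) (gv B z x)))) := by
      intro x
      rw [map_sum, Finset.mul_sum, Finset.mul_sum]
      apply Finset.sum_congr rfl
      intro z _
      rw [map_mul, Complex.conj_ofReal]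
      ring
    simp_rw [e1]
    rw [Summable.tsum_finsetSum (fun y _ => (hsY y).mul_left _), Complex.re_sum]
    apply Finset.sum_congr rfl
    intro y _
    rw [tsum_mul_left, Complex.re_ofReal_mul]
  rw [hmain]
  refine (dualW (fun x => aa P i x * gv B (j, 0) x)
    (fun x => (starRingEnd ℂ) (∑ z ∈ S, (u z : ℂ) * gv B z x)) η hsa
    (by simpa only [RCLike.norm_conj] using hsw)).trans ?_
  simp only [RCLike.norm_conj]
  have e3 : ∀ x : Ix N, ‖aa P i x * gv B (j, 0) x‖ = ‖aa P i x * ps (B j x.1) (x.2 + 1)‖ := by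
    intro x
    rw [norm_mul, norm_mul, norm_gv]
  simp_rw [e3]
  exact mul_le_mul_of_nonneg_left (Real.sqrt_le_sqrt hbw) (Real.sqrt_nonneg _)

/-- Bessel inequality for the twists of one member. -/
theorem bessel {i b : ℕ} {P : ℕ → Polynomial ℂ} (H : Hyp N i b P) (hB : RS N B)
    (L : J → J → ℂ → ℂ)
    (hL : ∀ (j k : J) (s : ℂ), 1 + (i:ℝ)/2 < s.re → L j k s = EP N P (B j) (B k) s)
    (j : J) (S : Finset (J × ℝ)) :
    ∃ C : ℝ, ∀ h : ℝ, 0 < h → h ≤ 1 →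
      ∑ z ∈ S, Real.log ‖L j z.1 (1 + (i:ℂ)/2 + (h:ℂ) + (z.2:ℂ) * I)‖ ^ 2 ≤
        Real.log ‖SQ N P (B j) (1 + (i:ℂ) + (h:ℂ))‖ * (Real.log (1/h) + C) := by
  classical
  set S' : Finset (J × ℝ) := S.image (fun x => (x.1, -x.2)) with hS'
  have hinj : Set.InjOn (fun x : J × ℝ => (x.1, -x.2)) S := by
    intro a _ c _ h
    simp only [Prod.mk.injEq, neg_inj] at h
    exact Prod.ext h.1 h.2
  obtain ⟨C, hC0, hC⟩ := besselW H hB j S'
  refine ⟨C, fun h h0 h1 => ?_⟩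
  set l : J × ℝ → ℝ := fun z => Real.log ‖L j z.1 (1 + (i:ℂ)/2 + (h:ℂ) + (z.2:ℂ) * I)‖ with hl
  have h2 := hC h h0 h1 (fun z => l (z.1, -z.2))
  have e : ∀ z : J × ℝ, (∑' x : Ix N, (w h x : ℂ) *
      (aa P i x * (gv B (j, 0) x * (starRingEnd ℂ) (gv B z x)))).re = l (z.1, -z.2) := by
    intro z
    rw [hl]
    simp only
    rw [hL _ _ _ (by simp; exact h0), (log_EP H hB j z.1 h0 (-z.2)).2]
    congr 2
    funext x
    rw [gv_mul]
    simp only [zero_sub]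
  simp_rw [e] at h2
  rw [← (log_SQ H (hB.small j) h0 (hB.summ j h h0)).2] at h2
  have e1 : ∑ z ∈ S', l (z.1, -z.2) * l (z.1, -z.2) = ∑ z ∈ S, l z ^ 2 := by
    rw [hS', Finset.sum_image hinj]
    apply Finset.sum_congr rfl
    intro x _
    simp only [neg_neg]
    ring
  have e2 : ∑ z ∈ S', l (z.1, -z.2) ^ 2 = ∑ z ∈ S, l z ^ 2 := by
    rw [← e1]
    apply Finset.sum_congr rfl
    intro x _
    ring
  rw [e1, e2] at h2
  have hlog : 0 ≤ Real.log (1/h) := by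
    apply Real.log_nonneg
    rw [le_div_iff₀ h0]
    linarith
  have hR : 0 ≤ Real.log ‖SQ N P (B j) (1 + (i:ℂ) + (h:ℂ))‖ := by
    rw [(log_SQ H (hB.small j) h0 (hB.summ j h h0)).2]
    exact tsum_nonneg fun x => by
      have := (w_pos h x).le
      positivity
  set A := ∑ z ∈ S, l z ^ 2 with hA
  set R := Real.log ‖SQ N P (B j) (1 + (i:ℂ) + (h:ℂ))‖ with hRdef
  have hA0 : 0 ≤ A := Finset.sum_nonneg fun _ _ => sq_nonneg _
  rw [abs_of_nonneg hA0, ← Real.sqrt_mul hR] at h2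
  have h3 : A ^ 2 ≤ R * ((Real.log (1/h) + C) * A) := by
    have h4 := Real.sq_sqrt (show 0 ≤ R * ((Real.log (1/h) + C) * A) by positivity)
    nlinarith [Real.sqrt_nonneg (R * ((Real.log (1/h) + C) * A))]
  rcases hA0.eq_or_lt with h5 | h5
  · rw [← h5]
    positivity
  · have h6 : A * A ≤ A * (R * (Real.log (1/h) + C)) := by nlinarith
    exact le_of_mul_le_mul_left h6 h5

end Pool.Agent.H5.ATW2
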